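import Pool.Agent.P.MP_fcd401_al.H7.Pow

set_option autoImplicit false

namespace Pool.Agent.Results.MP_fcd401_al.AllExponents

/-- The exponents of factorial-type subgroup growth of finitely generated residually finite groups
are exactly the nonnegative real numbers. -/
theorem result (α : ℝ) :
    (∃ (G : Type) (_ : Group G), Group.FG G ∧
      (∀ g : G, g ≠ 1 → ∃ H : Subgroup G, H.FiniteIndex ∧ g ∉ H) ∧
      Filter.Tendsto
        (fun n : ℕ =>
          Real.log ((Set.ncard {H : Subgroup G | H.index ≠ 0 ∧ H.index ≤ n} : ℕ) : ℝ) /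
            Real.log ((Nat.factorial n : ℕ) : ℝ))
        Filter.atTop (nhds α)) ↔ 0 ≤ α :=
  Pool.Agent.P.MP_fcd401_al.H7.spec_iff α

end Pool.Agent.Results.MP_fcd401_al.AllExponents
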